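import Pool.Agent.Lib.MP_b07157_agCS.T1
import Pool.Agent.Lib.MP_b07157_agCS.B0
import Pool.Agent.Lib.MP_b07157_agSE.Surf

/-!
# Polynomials of degree at most three in four variables: definitions
-/

noncomputable section

namespace MPb07157

open MvPolynomial

namespace C5

variable {n : ℕ}

/-- The linear form with the coefficients `l`. -/
def ln (l x : Fin n → ℂ) : ℂ := ∑ i, l i * x i

/-- Half of the square of a linear form plus a cubic form. -/
def Gd (l : Fin n → ℂ) (t : Fin n → Fin n → Fin n → ℂ) : MvPolynomial (Fin n) ℂ :=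
  C (1 / 2) * (∑ i, C (l i) * X i) ^ 2 + CS.cub t

/-- `x` is a critical zero of `Gd l t`. -/
def Crit (l : Fin n → ℂ) (t : Fin n → Fin n → Fin n → ℂ) (x : Fin n → ℂ) : Prop :=
  ln l x ^ 2 / 2 + CS.tri t x x x = 0 ∧ ∀ z, ln l x * ln l z + 3 * CS.tri t x x z = 0

/-- The Hessian matrix of `Gd l t` at `x` is zero. -/
def HZero (l : Fin n → ℂ) (t : Fin n → Fin n → Fin n → ℂ) (x : Fin n → ℂ) : Prop :=
  ∀ z w, ln l z * ln l w + 6 * CS.tri t x z w = 0

/-- `v` is a direction in which `Gd l t` is constant. -/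
def Dir (l : Fin n → ℂ) (t : Fin n → Fin n → Fin n → ℂ) (v : Fin n → ℂ) : Prop :=
  ln l v = 0 ∧ ∀ z w, CS.tri t v z w = 0

end C5

end MPb07157
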