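import Pool.Agent.Lib.MP_b07157_agC5S.Defs

/-!
# Values, gradients and Hessian matrices of `Gd l t`
-/

noncomputable section

namespace MPb07157

open MvPolynomial CS

namespace C5

variable {n : ℕ} {l : Fin n → ℂ} {t : Fin n → Fin n → Fin n → ℂ}

theorem eval_Gd (x : Fin n → ℂ) : eval x (Gd l t) = ln l x ^ 2 / 2 + tri t x x x := by
  unfold Gd ln
  rw [map_add, eval_cub]
  simp only [map_mul, map_pow, map_sum, eval_C, eval_X]
  ring

theorem L1_pderiv_lin (l : Fin n → ℂ) (i : Fin n) :
    pderiv i (∑ j, C (l j) * X j : MvPolynomial (Fin n) ℂ) = C (l i) := by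
  classical
  rw [map_sum, Finset.sum_eq_single i]
  · rw [Derivation.leibniz, pderiv_X_self, pderiv_C]
    simp
  · intro j _ hj
    rw [Derivation.leibniz, pderiv_X_of_ne hj, pderiv_C]
    simp
  · intro h
    exact absurd (Finset.mem_univ i) h

theorem L1_pderiv_Gd (i : Fin n) :
    pderiv i (Gd l t) = C (l i) * (∑ j, C (l j) * X j) + pderiv i (cub t) := by
  unfold Gd
  rw [map_add, Derivation.leibniz, Derivation.leibniz_pow, L1_pderiv_lin, pderiv_C]
  have h2 : (C (1 / 2 : ℂ) * C 2 : MvPolynomial (Fin n) ℂ) = 1 := by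
    rw [← C_mul]
    norm_num
  have h3 : (2 : MvPolynomial (Fin n) ℂ) = C 2 := (map_ofNat C 2).symm
  simp only [smul_eq_mul, nsmul_eq_mul, smul_zero, mul_zero, add_zero]
  push_cast
  rw [h3]
  have h4 : (C (1 / 2 : ℂ) : MvPolynomial (Fin n) ℂ) *
      (C 2 * ((∑ j, C (l j) * X j) ^ (2 - 1) * C (l i))) =
      (C (1 / 2) * C 2) * (C (l i) * (∑ j, C (l j) * X j)) := by
    rw [show (2 : ℕ) - 1 = 1 from rfl, pow_one]
    ring
  rw [h4, h2, one_mul]

theorem eval_pderiv_Gd (ht : Sym t) (x : Fin n → ℂ) (i : Fin n) :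
    eval x (pderiv i (Gd l t)) = ln l x * l i + 3 * ∑ j, ∑ k, t i j k * (x j * x k) := by
  rw [L1_pderiv_Gd, map_add, eval_pderiv_cub ht]
  simp only [map_mul, map_sum, eval_C, eval_X]
  unfold ln
  ring

theorem hessAt_Gd (ht : Sym t) (x : Fin n → ℂ) (i j : Fin n) :
    YG.hessAt (Gd l t) x i j = l i * l j + 6 * ∑ k, t i j k * x k := by
  have h1 := hessAt_cub ht x i j
  unfold YG.hessAt at h1 ⊢
  rw [Matrix.of_apply] at h1 ⊢
  rw [L1_pderiv_Gd, map_add, map_add, h1, Derivation.leibniz, L1_pderiv_lin, pderiv_C]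
  simp only [smul_eq_mul, map_mul, map_add, eval_C, mul_zero, map_zero, add_zero]
  ring

theorem L1_third (ht : Sym t) (x y z : Fin n → ℂ) :
    tri t x y z = ∑ i, z i * ∑ j, ∑ k, t i j k * (x j * y k) := by
  have h0 : tri t x y z = tri t z x y := by
    rw [tri_comm₂₃ ht, tri_comm₁₂ ht]
  rw [h0]
  unfold tri
  refine Finset.sum_congr rfl fun i _ => ?_
  rw [Finset.mul_sum]
  refine Finset.sum_congr rfl fun j _ => ?_
  rw [Finset.mul_sum]
  refine Finset.sum_congr rfl fun k _ => ?_
  ring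

/-- `Crit l t x` says that `x` is a critical zero. -/
theorem crit_iff (ht : Sym t) (x : Fin n → ℂ) :
    Crit l t x ↔ eval x (Gd l t) = 0 ∧ ∀ i, eval x (pderiv i (Gd l t)) = 0 := by
  unfold Crit
  rw [eval_Gd]
  refine and_congr Iff.rfl ?_
  have key : ∀ z, ln l x * ln l z + 3 * tri t x x z =
      ∑ i, z i * eval x (pderiv i (Gd l t)) := by
    intro z
    rw [L1_third ht]
    conv_lhs => rw [ln, ln]
    rw [Finset.mul_sum, Finset.mul_sum, ← Finset.sum_add_distrib]
    refine Finset.sum_congr rfl fun i _ => ?_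
    rw [eval_pderiv_Gd ht]
    unfold ln
    ring
  constructor
  · intro h i
    have h1 := h (Pi.single i 1)
    rw [key, Finset.sum_eq_single i] at h1
    · simpa using h1
    · intro k _ hk
      rw [Pi.single_eq_of_ne hk, zero_mul]
    · intro hi
      exact absurd (Finset.mem_univ i) hi
  · intro h z
    rw [key]
    exact Finset.sum_eq_zero fun i _ => by rw [h i, mul_zero]

/-- The Hessian matrix as a bilinear form. -/
theorem form_hessAt_Gd (ht : Sym t) (x z w : Fin n → ℂ) :
    ∑ i, ∑ j, YG.hessAt (Gd l t) x i j * (z i * w j) = ln l z * ln l w + 6 * tri t x z w := by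
  have h0 : tri t x z w = tri t z w x := by
    rw [tri_comm₁₂ ht, tri_comm₂₃ ht]
  rw [h0]
  unfold tri ln
  rw [Finset.sum_mul_sum, Finset.mul_sum, ← Finset.sum_add_distrib]
  refine Finset.sum_congr rfl fun i _ => ?_
  rw [Finset.mul_sum, ← Finset.sum_add_distrib]
  refine Finset.sum_congr rfl fun j _ => ?_
  rw [hessAt_Gd ht, add_mul, Finset.mul_sum, Finset.mul_sum, Finset.sum_mul]
  congr 1
  · ring
  · refine Finset.sum_congr rfl fun k _ => ?_
    ring

theorem hZero_iff (ht : Sym t) (x : Fin n → ℂ) : HZero l t x ↔ YG.hessAt (Gd l t) x = 0 := by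
  constructor
  · intro h
    ext i j
    have h1 := h (Pi.single i 1) (Pi.single j 1)
    rw [← form_hessAt_Gd ht, Finset.sum_eq_single i, Finset.sum_eq_single j] at h1
    · simpa using h1
    · intro k _ hk
      rw [Pi.single_eq_of_ne hk]
      ring
    · intro hi
      exact absurd (Finset.mem_univ j) hi
    · intro k _ hk
      refine Finset.sum_eq_zero fun m _ => ?_
      rw [Pi.single_eq_of_ne hk]
      ring
    · intro hi
      exact absurd (Finset.mem_univ i) hi
  · intro h z w
    rw [← form_hessAt_Gd ht, h]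
    exact Finset.sum_eq_zero fun i _ => Finset.sum_eq_zero fun j _ => by
      rw [Matrix.zero_apply, zero_mul]

/-- The polynomial is constant in the direction `v`. -/
theorem eval_add_smul_of_dir (ht : Sym t) {v : Fin n → ℂ} (hv : Dir l t v) (x : Fin n → ℂ) (s : ℂ) :
    eval (x + s • v) (Gd l t) = eval x (Gd l t) := by
  have h1 : ln l (x + s • v) = ln l x := by
    have h2 : ln l (x + s • v) = ln l x + s * ln l v := by
      unfold ln
      rw [Finset.mul_sum, ← Finset.sum_add_distrib]
      refine Finset.sum_congr rfl fun i _ => ?_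
      rw [Pi.add_apply, Pi.smul_apply, smul_eq_mul]
      ring
    rw [h2, hv.1, mul_zero, add_zero]
  have h3 : ∀ y z, tri t (x + s • v) y z = tri t x y z := by
    intro y z
    rw [tri_add, tri_smul, hv.2, mul_zero, add_zero]
  rw [eval_Gd, eval_Gd, h1, h3, tri_comm₁₂ ht, h3, tri_comm₂₃ ht, tri_comm₁₂ ht, h3]

end C5

end MPb07157
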