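import Pool.Agent.Lib.MP_b07157_agC5S.Defs
import Pool.Agent.Lib.MP_b07157_agSE.Deg4

/-!
# Critical zeros whose Hessian matrix has rank one, of polynomials of degree at most three
-/

noncomputable section

namespace MPb07157

open MvPolynomial CS

namespace C5

variable {n : ℕ}

/-- The linear form. -/
private theorem L2_pderiv (l : Fin n → ℂ) (j : Fin n) :
    pderiv j (∑ i, C (l i) * X i : MvPolynomial (Fin n) ℂ) = C (l j) := by
  classical
  rw [map_sum]
  simp only [pderiv_C_mul, pderiv_X]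
  rw [Finset.sum_eq_single j]
  · simp
  · intro b _ hb
    rw [Pi.single_eq_of_ne hb, mul_zero]
  · intro h
    exact absurd (Finset.mem_univ j) h

private theorem L2_eval (l : Fin n → ℂ) :
    eval 0 (∑ i, C (l i) * X i : MvPolynomial (Fin n) ℂ) = 0 := by
  rw [map_sum]
  refine Finset.sum_eq_zero fun i _ => ?_
  rw [map_mul, eval_X, Pi.zero_apply, mul_zero]

private theorem L2_coeff (F : MvPolynomial (Fin n) ℂ) : coeff 0 F = eval 0 F := by
  rw [MvPolynomial.eval_zero, MvPolynomial.constantCoeff_eq]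

/-- Proof. `f = ∑_{j ≤ 3} homogeneousComponent j f` (`sum_homogeneousComponent` and
`homogeneousComponent_eq_zero`, as in `SE4.isHomogeneous_three` of agCS/Deg3.lean), the components of
degree 0 and 1 are zero by `h0` and `h1`. The component `h2` of degree 2: `2 h2 = ∑ X_i ∂_i h2`,
`∂_i h2 = ∑_j X_j ∂_j ∂_i h2` (`IsHomogeneous.sum_X_mul_pderiv`), `∂_j ∂_i h2 = C (coeff 0 _)`, and
`coeff 0 (∂_j ∂_i f) = coeff 0 (∂_j ∂_i h2) = YG.hessAt f 0 j i`; or compare coefficients directly.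
The component of degree 3 is `cub t` by `CS.exists_cub` (agCS/T0.lean). -/
theorem exists_Gd {f : MvPolynomial (Fin n) ℂ} (hd : f.totalDegree ≤ 3) (h0 : eval 0 f = 0)
    (h1 : ∀ i, eval 0 (pderiv i f) = 0) {l : Fin n → ℂ}
    (hl : ∀ i j, YG.hessAt f 0 i j = l i * l j) : ∃ t, Sym t ∧ f = Gd l t := by
  obtain ⟨L, hL⟩ : ∃ L : MvPolynomial (Fin n) ℂ, L = ∑ i, C (l i) * X i := ⟨_, rfl⟩
  have hL1 : ∀ j, pderiv j L = C (l j) := by
    intro j
    rw [hL, L2_pderiv]
  have hL0 : eval 0 L = 0 := by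
    rw [hL, L2_eval]
  have hLh : L.IsHomogeneous 1 := by
    rw [hL]
    exact IsHomogeneous.sum _ _ _ fun i _ => isHomogeneous_C_mul_X _ _
  have hd1 : ∀ j, pderiv j (C (1 / 2) * L ^ 2) = L * C (l j) := by
    intro j
    rw [pderiv_C_mul, pow_two, Derivation.leibniz, hL1, smul_eq_mul, ← two_mul, ← mul_assoc]
    have h2 : (C (1 / 2) * 2 : MvPolynomial (Fin n) ℂ) = 1 := by
      rw [show (2 : MvPolynomial (Fin n) ℂ) = C 2 by rw [map_ofNat], ← C_mul]
      norm_num
    rw [h2, one_mul]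
  have hd2 : ∀ i j, pderiv i (L * C (l j)) = C (l i) * C (l j) := by
    intro i j
    rw [mul_comm, pderiv_C_mul, hL1, mul_comm]
  have hdeg : (C (1 / 2) * L ^ 2).totalDegree ≤ 3 := by
    have h2 : (C (1 / 2) * L ^ 2).IsHomogeneous (0 + 1 * 2) :=
      (isHomogeneous_C _ _).mul (hLh.pow 2)
    exact h2.totalDegree_le.trans (by norm_num)
  have hg : (f - C (1 / 2) * L ^ 2).IsHomogeneous 3 := by
    refine SE3.isHomogeneous_three ((totalDegree_sub _ _).trans (max_le hd hdeg)) ?_ ?_ ?_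
    · rw [L2_coeff, map_sub, h0, map_mul, map_pow, hL0]
      ring
    · intro i
      rw [L2_coeff, map_sub, hd1, map_sub, h1, map_mul, hL0]
      ring
    · intro i j
      rw [L2_coeff, map_sub, map_sub, hd1, hd2, map_sub, map_mul, eval_C, eval_C]
      have h2 : eval 0 (pderiv i (pderiv j f)) = l i * l j := hl i j
      rw [h2, sub_self]
  obtain ⟨t, ht, hgt⟩ := exists_cub hg
  refine ⟨t, ht, ?_⟩
  unfold Gd
  rw [← hL, ← hgt]
  ring

end C5

end MPb07157
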