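import Pool.Agent.Lib.MP_b07157_agC5S.L1

/-!
# Changes of coordinates
-/

noncomputable section

namespace MPb07157

open MvPolynomial CS

namespace C5

variable {n : ℕ}

private theorem L3_swap₁₂ (t : Fin n → Fin n → Fin n → ℂ) (x y z : Fin n → ℂ) :
    tri t x y z = tri (fun i j k => t j i k) y x z := by
  unfold tri
  rw [Finset.sum_comm]
  refine Finset.sum_congr rfl fun i _ => Finset.sum_congr rfl fun j _ =>
    Finset.sum_congr rfl fun k _ => ?_
  ring

private theorem L3_swap₂₃ (t : Fin n → Fin n → Fin n → ℂ) (x y z : Fin n → ℂ) :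
    tri t x y z = tri (fun i j k => t i k j) x z y := by
  unfold tri
  refine Finset.sum_congr rfl fun i _ => ?_
  rw [Finset.sum_comm]
  refine Finset.sum_congr rfl fun j _ => Finset.sum_congr rfl fun k _ => ?_
  ring

private theorem L3_sum₁ (t : Fin n → Fin n → Fin n → ℂ) (w : Fin n → ℂ)
    (b : Fin n → Fin n → ℂ) (y z : Fin n → ℂ) :
    tri t (∑ a, w a • b a) y z = ∑ a, w a * tri t (b a) y z := by
  let L : (Fin n → ℂ) →ₗ[ℂ] ℂ :=
    { toFun := fun x => tri t x y z
      map_add' := fun x x' => tri_add t x x' y z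
      map_smul' := fun a x => tri_smul t a x y z }
  have h : L (∑ a, w a • b a) = ∑ a, w a * L (b a) := by
    rw [map_sum]
    exact Finset.sum_congr rfl fun a _ => by rw [map_smul, smul_eq_mul]
  exact h

private theorem L3_sum₂ (t : Fin n → Fin n → Fin n → ℂ) (w : Fin n → ℂ)
    (b : Fin n → Fin n → ℂ) (x z : Fin n → ℂ) :
    tri t x (∑ a, w a • b a) z = ∑ a, w a * tri t x (b a) z := by
  rw [L3_swap₁₂, L3_sum₁]
  exact Finset.sum_congr rfl fun a _ => by rw [L3_swap₁₂ t x]

private theorem L3_sum₃ (t : Fin n → Fin n → Fin n → ℂ) (w : Fin n → ℂ)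
    (b : Fin n → Fin n → ℂ) (x y : Fin n → ℂ) :
    tri t x y (∑ a, w a • b a) = ∑ a, w a * tri t x y (b a) := by
  rw [L3_swap₂₃, L3_sum₂]
  exact Finset.sum_congr rfl fun a _ => by rw [L3_swap₂₃ t x y]

/-- The linear form in the coordinates of a basis. -/
theorem ln_basis (l : Fin n → ℂ) (b : Module.Basis (Fin n) ℂ (Fin n → ℂ)) (x : Fin n → ℂ) :
    ln (fun i => ln l (b i)) x = ln l (b.equivFun.symm x) := by
  rw [Module.Basis.equivFun_symm_apply]
  unfold ln
  simp only [Finset.sum_apply, Pi.smul_apply, smul_eq_mul, Finset.sum_mul, Finset.mul_sum]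
  rw [Finset.sum_comm]
  refine Finset.sum_congr rfl fun i _ => Finset.sum_congr rfl fun j _ => ?_
  ring

/-- The trilinear form in the coordinates of a basis; cf. `linEq_basis` (agCS/T1.lean). -/
theorem tri_basis (t : Fin n → Fin n → Fin n → ℂ) (b : Module.Basis (Fin n) ℂ (Fin n → ℂ))
    (x y z : Fin n → ℂ) :
    tri (fun i j k => tri t (b i) (b j) (b k)) x y z =
      tri t (b.equivFun.symm x) (b.equivFun.symm y) (b.equivFun.symm z) := by
  rw [Module.Basis.equivFun_symm_apply, Module.Basis.equivFun_symm_apply,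
    Module.Basis.equivFun_symm_apply, L3_sum₁]
  conv_lhs => unfold tri
  refine Finset.sum_congr rfl fun i _ => ?_
  rw [L3_sum₂, Finset.mul_sum]
  refine Finset.sum_congr rfl fun j _ => ?_
  rw [L3_sum₃, Finset.mul_sum, Finset.mul_sum]
  refine Finset.sum_congr rfl fun k _ => ?_
  unfold tri
  ring

/-- `Gd l t` in the coordinates of a basis. -/
theorem linEq_Gd (l : Fin n → ℂ) (t : Fin n → Fin n → Fin n → ℂ)
    (b : Module.Basis (Fin n) ℂ (Fin n → ℂ)) :
    LinEq (Gd l t) (Gd (fun i => ln l (b i)) fun i j k => tri t (b i) (b j) (b k)) := by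
  refine ⟨b.equivFun.symm, fun w => ?_⟩
  rw [eval_Gd, eval_Gd, ln_basis, tri_basis]

end C5

end MPb07157
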