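import Pool.Agent.Lib.MP_b07157_agC5S.Defs
import Pool.Agent.Lib.MP_b07157_agS.SMain
import Pool.Agent.Lib.MP_b07157_agLC.Lin

/-!
# Linear changes of coordinates and the global conjecture
-/

noncomputable section

namespace MPb07157

open MvPolynomial

namespace CS

variable {n : ℕ}

/-- The automorphism of the polynomial ring given by an invertible matrix. -/
def L4E (M N : Matrix (Fin n) (Fin n) ℂ) (h1 : ∀ w, M.mulVec (N.mulVec w) = w)
    (h2 : ∀ w, N.mulVec (M.mulVec w) = w) :
    MvPolynomial (Fin n) ℂ ≃ₐ[ℂ] MvPolynomial (Fin n) ℂ :=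
  AlgEquiv.ofAlgHom (aeval (LC.subM N)) (aeval (LC.subM M))
    (by
      apply MvPolynomial.algHom_ext
      intro i
      refine MvPolynomial.funext fun w => ?_
      rw [AlgHom.comp_apply, LC.eval_subM, LC.eval_subM, h1]
      rfl)
    (by
      apply MvPolynomial.algHom_ext
      intro i
      refine MvPolynomial.funext fun w => ?_
      rw [AlgHom.comp_apply, LC.eval_subM, LC.eval_subM, h2]
      rfl)

theorem LinEq.smcGlob {F G : MvPolynomial (Fin n) ℂ} (h : LinEq F G) (hG : SmcGlob G) :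
    SmcGlob F := by
  classical
  obtain ⟨e, he⟩ := h
  set N : Matrix (Fin n) (Fin n) ℂ := LinearMap.toMatrix' (e.symm : (Fin n → ℂ) →ₗ[ℂ] (Fin n → ℂ))
    with hN
  set M : Matrix (Fin n) (Fin n) ℂ := LinearMap.toMatrix' (e : (Fin n → ℂ) →ₗ[ℂ] (Fin n → ℂ))
    with hM
  have hNe : ∀ w, N.mulVec w = e.symm w := by
    intro w
    rw [← Matrix.toLin'_apply, hN, Matrix.toLin'_toMatrix']
    rfl
  have hMe : ∀ w, M.mulVec w = e w := by
    intro w
    rw [← Matrix.toLin'_apply, hM, Matrix.toLin'_toMatrix']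
    rfl
  refine SmcGlob.of_polyEquivPow one_pos ⟨L4E M N (fun w => ?_) (fun w => ?_), 1, one_ne_zero, ?_⟩ hG
  · rw [hNe, hMe, e.apply_symm_apply]
  · rw [hMe, hNe, e.symm_apply_apply]
  · rw [pow_one, map_one, one_mul]
    refine MvPolynomial.funext fun w => ?_
    show _ = eval w (aeval (LC.subM N) G)
    rw [LC.eval_subM, hNe, ← he, e.apply_symm_apply]

end CS

end MPb07157
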