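import Pool.Agent.Lib.MP_b07157_agC5S.Defs

/-!
# Two critical zeros at which the Hessian matrix has rank one
-/

noncomputable section

namespace MPb07157

open MvPolynomial CS

namespace C5

variable {n : ℕ} {l : Fin n → ℂ} {t : Fin n → Fin n → Fin n → ℂ}

theorem ln_smul (l : Fin n → ℂ) (s : ℂ) (x : Fin n → ℂ) : ln l (s • x) = s * ln l x := by
  unfold ln
  rw [Finset.mul_sum]
  refine Finset.sum_congr rfl fun i _ => ?_
  rw [Pi.smul_apply, smul_eq_mul]
  ring

theorem ln_smul_left (l : Fin n → ℂ) (s : ℂ) (x : Fin n → ℂ) : ln (s • l) x = s * ln l x := by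
  unfold ln
  rw [Finset.mul_sum]
  refine Finset.sum_congr rfl fun i _ => ?_
  rw [Pi.smul_apply, smul_eq_mul]
  ring

/-- The origin is a critical zero with the Hessian matrix `l l^T`; let `u` be a second one, with the
Hessian matrix `m m^T`.

Proof. `hu.2 u` and `hu.1` give `ln l u = 0`, `tri t u u u = 0`, then `hu.2 z` gives
`tri t u u z = 0`; `hm u u` gives `ln m u = 0`. If `l`, `m` are linearly dependent then, `l` and `m`
being nonzero, `m = c • l`, and `6 tri t u z w = (c ^ 2 - 1) ln l z ln l w` by `hm`. If `c ^ 2 = 1`,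
then `Dir l t u`; otherwise `x = s • u` with `s = -1 / (c ^ 2 - 1)` is a critical zero with
`HZero l t x` (`tri_smul`, `tri_comm₁₂`, `tri_comm₂₃` in agCS/T1.lean). -/
theorem pair (ht : Sym t) (hl : l ≠ 0) (hZ : ∀ x, Crit l t x → ¬ HZero l t x)
    (hD : ∀ v, v ≠ 0 → ¬ Dir l t v) {u : Fin n → ℂ} (hu0 : u ≠ 0) (hu : Crit l t u)
    {m : Fin n → ℂ} (hm : ∀ z w, ln l z * ln l w + 6 * tri t u z w = ln m z * ln m w) :
    LinearIndependent ℂ ![l, m] ∧ ln l u = 0 ∧ ln m u = 0 := by
  have hlu : ln l u = 0 := by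
    have h1 := hu.2 u
    have h2 := hu.1
    have h3 : ln l u ^ 2 = 0 := by linear_combination (-2) * h1 + 6 * h2
    exact pow_eq_zero_iff two_ne_zero |>.1 h3
  have htu : ∀ z, tri t u u z = 0 := by
    intro z
    have h1 := hu.2 z
    rw [hlu, zero_mul, zero_add] at h1
    exact (mul_eq_zero.1 h1).resolve_left (by norm_num)
  have hmu : ln m u = 0 := by
    have h1 := hm u u
    rw [hlu, htu] at h1
    have h3 : ln m u ^ 2 = 0 := by linear_combination -h1
    exact pow_eq_zero_iff two_ne_zero |>.1 h3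
  refine ⟨?_, hlu, hmu⟩
  rw [LinearIndependent.pair_iff]
  intro s r hsr
  by_cases hr : r = 0
  · rw [hr, zero_smul, add_zero] at hsr
    exact ⟨(smul_eq_zero.1 hsr).resolve_right hl, hr⟩
  exfalso
  obtain ⟨c, hc⟩ : ∃ c : ℂ, m = c • l := by
    refine ⟨-(s / r), ?_⟩
    have h1 : r • m = (-s) • l := by
      rw [neg_smul]
      exact (eq_neg_of_add_eq_zero_right hsr)
    have h2 : m = r⁻¹ • (r • m) := by rw [smul_smul, inv_mul_cancel₀ hr, one_smul]
    rw [h2, h1, smul_smul]
    congr 1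
    field_simp
  have h6 : ∀ z w, 6 * tri t u z w = (c ^ 2 - 1) * (ln l z * ln l w) := by
    intro z w
    have h1 := hm z w
    rw [hc, ln_smul_left, ln_smul_left] at h1
    linear_combination h1
  by_cases hc1 : c ^ 2 - 1 = 0
  · refine hD u hu0 ⟨hlu, fun z w => ?_⟩
    have h1 := h6 z w
    rw [hc1, zero_mul] at h1
    exact (mul_eq_zero.1 h1).resolve_left (by norm_num)
  · set s0 : ℂ := -1 / (c ^ 2 - 1) with hs0
    have hs1 : s0 * (c ^ 2 - 1) = -1 := by
      rw [hs0]
      field_simp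
    have e1 : ln l (s0 • u) = 0 := by rw [ln_smul, hlu, mul_zero]
    have e2 : ∀ z, tri t (s0 • u) (s0 • u) z = 0 := by
      intro z
      rw [tri_smul, tri_comm₁₂ ht, tri_smul, htu, mul_zero, mul_zero]
    refine hZ (s0 • u) ⟨?_, fun z => ?_⟩ fun z w => ?_
    · rw [e1, e2]
      ring
    · rw [e1, e2]
      ring
    · rw [tri_smul]
      linear_combination s0 * h6 z w + (ln l z * ln l w) * hs1

end C5

end MPb07157
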