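import Pool.Agent.Lib.MP_b07157_agC5S.Defs

/-!
# A basis adapted to two linear forms
-/

noncomputable section

namespace MPb07157

namespace C5

/-- Proof. The linear map `(ln l, ln m) : ℂ^4 → ℂ^2` is surjective (its matrix has linearly
independent rows), so its kernel has dimension two and contains a vector `v` independent of `u`. Take
`b_2 = u`, `b_3 = v` and preimages `b_0`, `b_1` of the unit vectors; `b` is linearly independent
(apply `ln l` and `ln m`), so it is a basis (`basisOfLinearIndependentOfCardEqFinrank`). -/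
theorem exists_basis {l m u : Fin 4 → ℂ} (hlm : LinearIndependent ℂ ![l, m]) (hu0 : u ≠ 0)
    (hlu : ln l u = 0) (hmu : ln m u = 0) :
    ∃ b : Module.Basis (Fin 4) ℂ (Fin 4 → ℂ), b 2 = u ∧
      ln l (b 0) = 1 ∧ ln l (b 1) = 0 ∧ ln l (b 3) = 0 ∧
      ln m (b 0) = 0 ∧ ln m (b 1) = 1 ∧ ln m (b 3) = 0 := by
  classical
  let A : Matrix (Fin 2) (Fin 4) ℂ := Matrix.of ![l, m]
  have hA0 : ∀ x, A.mulVecLin x 0 = ln l x := fun x => rfl
  have hA1 : ∀ x, A.mulVecLin x 1 = ln m x := fun x => rfl
  have hrank : A.rank = 2 := by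
    have h := LinearIndependent.rank_matrix (M := A) hlm
    rw [h]
    rfl
  have hrk : Module.finrank ℂ (LinearMap.range A.mulVecLin) = 2 := hrank
  have htop : LinearMap.range A.mulVecLin = ⊤ := by
    apply Submodule.eq_top_of_finrank_eq
    rw [hrk, Module.finrank_fin_fun]
  have hker : Module.finrank ℂ (LinearMap.ker A.mulVecLin) = 2 := by
    have h := LinearMap.finrank_range_add_finrank_ker A.mulVecLin
    rw [hrk, Module.finrank_fin_fun] at h
    omega
  obtain ⟨v, hvK, hvu⟩ : ∃ v ∈ LinearMap.ker A.mulVecLin, v ∉ Submodule.span ℂ {u} := by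
    by_contra hcon
    push Not at hcon
    have h1 : LinearMap.ker A.mulVecLin ≤ Submodule.span ℂ {u} := hcon
    have h2 := Submodule.finrank_mono h1
    rw [hker, finrank_span_singleton hu0] at h2
    omega
  have hlv : ln l v = 0 := by
    rw [← hA0, LinearMap.mem_ker.1 hvK]
    rfl
  have hmv : ln m v = 0 := by
    rw [← hA1, LinearMap.mem_ker.1 hvK]
    rfl
  obtain ⟨b0, hb0⟩ : ∃ b0, A.mulVecLin b0 = ![1, 0] := by
    have : (![1, 0] : Fin 2 → ℂ) ∈ LinearMap.range A.mulVecLin := by
      rw [htop]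
      trivial
    exact this
  obtain ⟨b1, hb1⟩ : ∃ b1, A.mulVecLin b1 = ![0, 1] := by
    have : (![0, 1] : Fin 2 → ℂ) ∈ LinearMap.range A.mulVecLin := by
      rw [htop]
      trivial
    exact this
  have hl0 : ln l b0 = 1 := by rw [← hA0, hb0]; rfl
  have hm0 : ln m b0 = 0 := by rw [← hA1, hb0]; rfl
  have hl1 : ln l b1 = 0 := by rw [← hA0, hb1]; rfl
  have hm1 : ln m b1 = 1 := by rw [← hA1, hb1]; rfl
  have hli : LinearIndependent ℂ ![b0, b1, u, v] := by
    rw [Fintype.linearIndependent_iff]
    intro g hg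
    rw [Fin.sum_univ_four] at hg
    have hg' : g 0 • b0 + g 1 • b1 + g 2 • u + g 3 • v = 0 := hg
    have hsum := congrArg A.mulVecLin hg'
    rw [map_add, map_add, map_add, map_smul, map_smul, map_smul, map_smul, map_zero] at hsum
    have h1 : g 0 = 0 := by
      have h := congrFun hsum 0
      simp only [Pi.add_apply, Pi.smul_apply, Pi.zero_apply, hA0, hl0, hl1, hlu, hlv, smul_eq_mul,
        mul_one, mul_zero, add_zero] at h
      exact h
    have h2 : g 1 = 0 := by
      have h := congrFun hsum 1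
      simp only [Pi.add_apply, Pi.smul_apply, Pi.zero_apply, hA1, hm0, hm1, hmu, hmv, smul_eq_mul,
        mul_one, mul_zero, add_zero, zero_add] at h
      exact h
    rw [h1, h2, zero_smul, zero_smul, zero_add, zero_add] at hg'
    have h3 : g 3 = 0 := by
      by_contra hne
      apply hvu
      rw [Submodule.mem_span_singleton]
      refine ⟨-(g 3)⁻¹ * g 2, ?_⟩
      have h4 : g 3 • v = -(g 2 • u) := eq_neg_of_add_eq_zero_right hg'
      have h5 : v = (g 3)⁻¹ • (g 3 • v) := by rw [smul_smul, inv_mul_cancel₀ hne, one_smul]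
      rw [h5, h4, ← neg_smul, smul_smul]
      congr 1
      ring
    rw [h3, zero_smul, add_zero] at hg'
    have h4 : g 2 = 0 := (smul_eq_zero.1 hg').resolve_right hu0
    intro i
    fin_cases i
    · exact h1
    · exact h2
    · exact h4
    · exact h3
  let b := basisOfLinearIndependentOfCardEqFinrank hli (by
    rw [Module.finrank_fin_fun]
    rfl)
  have hb : ⇑b = ![b0, b1, u, v] := coe_basisOfLinearIndependentOfCardEqFinrank _ _
  refine ⟨b, ?_⟩
  rw [hb]
  exact ⟨rfl, hl0, hl1, hlv, hm0, hm1, hmv⟩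

end C5

end MPb07157
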