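import Pool.Agent.Lib.MP_b07157_agC5S.L1

/-!
# The points at which the Hessian matrix of the normal form has rank at most one
-/

noncomputable section

namespace MPb07157

open MvPolynomial CS

namespace C5

/-- The coefficients of the normal form
`x_0^2 (1 - x_2) / 2 + x_1^2 x_2 / 2 + g(x_0, x_1, x_3)`. -/
def NF (t : Fin 4 → Fin 4 → Fin 4 → ℂ) : Prop :=
  Sym t ∧ ∀ i j, t i j 2 = if i = j then ![-1 / 6, 1 / 6, 0, 0] i else 0

/-- The rank of a submatrix is at most the rank of the matrix. -/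
theorem L8_sub {M : Matrix (Fin 4) (Fin 4) ℂ} (r s : Fin 2 → Fin 4) :
    (M.submatrix r s).rank ≤ M.rank := by
  have e : M.submatrix r s = (Matrix.of fun (i : Fin 2) (j : Fin 4) =>
      if j = r i then (1 : ℂ) else 0) * (M *
      (Matrix.of fun (i : Fin 4) (j : Fin 2) => if i = s j then (1 : ℂ) else 0)) := by
    ext i j
    simp [Matrix.mul_apply]
  rw [e]
  exact (Matrix.rank_mul_le_right _ _).trans (Matrix.rank_mul_le_left _ _)

/-- A `2 × 2`-minor of a matrix of rank at most one vanishes. -/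
theorem L8_minor {M : Matrix (Fin 4) (Fin 4) ℂ} (hM : M.rank ≤ 1) (a b c d : Fin 4) :
    M a c * M b d - M a d * M b c = 0 := by
  by_contra hne
  have hdet : (M.submatrix ![a, b] ![c, d]).det ≠ 0 := by
    rw [Matrix.det_fin_two]
    simpa using hne
  have hu : IsUnit (M.submatrix ![a, b] ![c, d]) := by
    rw [Matrix.isUnit_iff_isUnit_det]
    exact isUnit_iff_ne_zero.mpr hdet
  have h2 : (M.submatrix ![a, b] ![c, d]).rank = 2 := by
    rw [Matrix.rank_of_isUnit _ hu]
    simp
  have h3 := L8_sub (M := M) ![a, b] ![c, d]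
  omega

/-- Proof. With `H = YG.hessAt _ x` (`hessAt_Gd`) one has `H 2 2 = 0`, `H 0 2 = - x_0`, `H 1 2 = x_1`;
all `2 × 2`-minors of `H` vanish, so `x_0 = x_1 = 0`. Then `∂_i = 3 t_{i33} x_3^2`
(`eval_pderiv_Gd`, `Fin.sum_univ_four`), and if `x_3 = 0`, then `H 0 0 = 1 - x_2`, `H 1 1 = x_2`,
`H 0 1 = 0`, so `x_2 = 0` or `x_2 = 1`. -/
theorem rank_le_one {t : Fin 4 → Fin 4 → Fin 4 → ℂ} (ht : NF t) {x : Fin 4 → ℂ}
    (hc : ∀ i, eval x (pderiv i (Gd (Pi.single 0 1) t)) = 0)
    (hr : (YG.hessAt (Gd (Pi.single 0 1) t) x).rank ≤ 1) :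
    x 0 = 0 ∧ x 1 = 0 ∧ ((∀ i, t i 3 3 = 0) ∨ x = 0 ∨ x = Pi.single 2 1) := by
  obtain ⟨hs, h2⟩ := ht
  have s12 : ∀ i j k, t i j k = t j i k := fun i j k => hs.1 i j k
  have s23 : ∀ i j k, t i j k = t i k j := fun i j k => hs.2 i j k
  -- the coefficients with an index two
  have t002 : t 0 0 2 = -1 / 6 := by rw [h2]; simp
  have t112 : t 1 1 2 = 1 / 6 := by rw [h2]; simp
  have t012 : t 0 1 2 = 0 := by rw [h2]; simp
  have t102 : t 1 0 2 = 0 := by rw [h2]; simp
  have t022 : t 0 2 2 = 0 := by rw [h2]; simp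
  have t122 : t 1 2 2 = 0 := by rw [h2]; simp
  have t222 : t 2 2 2 = 0 := by rw [h2]; simp
  have t322 : t 3 2 2 = 0 := by rw [h2]; simp
  have t032 : t 0 3 2 = 0 := by rw [h2]; simp
  have t132 : t 1 3 2 = 0 := by rw [h2]; simp
  have t232 : t 2 3 2 = 0 := by rw [h2]; simp
  have t332 : t 3 3 2 = 0 := by rw [h2]; simp
  have t202 : t 2 0 2 = 0 := by rw [h2]; simp
  have t212 : t 2 1 2 = 0 := by rw [h2]; simp
  have t302 : t 3 0 2 = 0 := by rw [h2]; simp
  have t312 : t 3 1 2 = 0 := by rw [h2]; simp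
  have t020 : t 0 2 0 = -1 / 6 := by rw [s23, t002]
  have t021 : t 0 2 1 = 0 := by rw [s23, t012]
  have t023 : t 0 2 3 = 0 := by rw [s23, t032]
  have t120 : t 1 2 0 = 0 := by rw [s23, t102]
  have t121 : t 1 2 1 = 1 / 6 := by rw [s23, t112]
  have t123 : t 1 2 3 = 0 := by rw [s23, t132]
  have t220 : t 2 2 0 = 0 := by rw [s23, t202]
  have t221 : t 2 2 1 = 0 := by rw [s23, t212]
  have t223 : t 2 2 3 = 0 := by rw [s23, t232]
  have t323 : t 3 2 3 = 0 := by rw [s23, t332]
  have t200 : t 2 0 0 = -1 / 6 := by rw [s12, t020]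
  have t201 : t 2 0 1 = 0 := by rw [s12, t021]
  have t203 : t 2 0 3 = 0 := by rw [s12, t023]
  have t210 : t 2 1 0 = 0 := by rw [s12, t120]
  have t211 : t 2 1 1 = 1 / 6 := by rw [s12, t121]
  have t213 : t 2 1 3 = 0 := by rw [s12, t123]
  set H := YG.hessAt (Gd (Pi.single 0 1) t) x with hH
  have hHe : ∀ i j, H i j = (Pi.single 0 1 : Fin 4 → ℂ) i * (Pi.single 0 1 : Fin 4 → ℂ) j +
      6 * ∑ k, t i j k * x k := fun i j => hessAt_Gd hs x i j
  have H22 : H 2 2 = 0 := by
    rw [hHe, Fin.sum_univ_four, t220, t221, t222, t223]; simp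
  have H02 : H 0 2 = - x 0 := by
    rw [hHe, Fin.sum_univ_four, t020, t021, t022, t023]; simp; ring
  have H20 : H 2 0 = - x 0 := by
    rw [hHe, Fin.sum_univ_four, t200, t201, t202, t203]; simp; ring
  have H12 : H 1 2 = x 1 := by
    rw [hHe, Fin.sum_univ_four, t120, t121, t122, t123]; simp
  have H21 : H 2 1 = x 1 := by
    rw [hHe, Fin.sum_univ_four, t210, t211, t212, t213]; simp
  have x0 : x 0 = 0 := by
    have h := L8_minor hr 0 2 0 2
    rw [H22, H02, H20] at h
    have h' : x 0 * x 0 = 0 := by linear_combination -h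
    exact mul_self_eq_zero.mp h'
  have x1 : x 1 = 0 := by
    have h := L8_minor hr 1 2 1 2
    rw [H22, H12, H21] at h
    have h' : x 1 * x 1 = 0 := by linear_combination -h
    exact mul_self_eq_zero.mp h'
  refine ⟨x0, x1, ?_⟩
  have hln : ln (Pi.single 0 1 : Fin 4 → ℂ) x = 0 := by
    unfold ln
    rw [Fin.sum_univ_four]
    simp [x0]
  have hgrad : ∀ i, t i 3 3 * (x 3 * x 3) = 0 := by
    intro i
    have h := hc i
    rw [eval_pderiv_Gd hs x i, hln] at h
    have e22 : t i 2 2 = 0 := by fin_cases i <;> simp [t022, t122, t222, t322]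
    have e32 : t i 3 2 = 0 := by fin_cases i <;> simp [t032, t132, t232, t332]
    have e23 : t i 2 3 = 0 := by rw [s23, e32]
    simp only [Fin.sum_univ_four, x0, x1, e22, e32, e23] at h
    linear_combination h / 3
  by_cases hx3 : x 3 = 0
  · right
    have H00 : H 0 0 = 1 - x 2 := by
      rw [hHe, Fin.sum_univ_four, x0, x1, hx3, t002]; simp; ring
    have H11 : H 1 1 = x 2 := by
      rw [hHe, Fin.sum_univ_four, x0, x1, hx3, t112]; simp
    have H01 : H 0 1 = 0 := by
      rw [hHe, Fin.sum_univ_four, x0, x1, hx3, t012]; simp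
    have h := L8_minor hr 0 1 0 1
    rw [H00, H11, H01] at h
    have h' : (1 - x 2) * x 2 = 0 := by linear_combination h
    rcases mul_eq_zero.mp h' with h1 | h1
    · right
      have h2' : x 2 = 1 := by linear_combination -h1
      funext i
      fin_cases i
      · simpa using x0
      · simpa using x1
      · simpa using h2'
      · simpa using hx3
    · left
      funext i
      fin_cases i
      · simpa using x0
      · simpa using x1
      · simpa using h1
      · simpa using hx3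
  · left
    intro i
    have h := hgrad i
    have h3 : x 3 * x 3 ≠ 0 := mul_ne_zero hx3 hx3
    exact (mul_eq_zero.mp h).resolve_right h3

end C5

end MPb07157
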