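import Pool.Agent.Lib.MP_b07157_agC5S.P
import Pool.Agent.Lib.MP_b07157_agC5S.L8

/-!
# The normal form
-/

noncomputable section

namespace MPb07157

open MvPolynomial CS

namespace C5

variable {t : Fin 4 → Fin 4 → Fin 4 → ℂ}

theorem L9s1 (ht : Sym t) (i j k : Fin 4) : t j i k = t i j k := (ht.1 i j k).symm

theorem L9s2 (ht : Sym t) (i j k : Fin 4) : t i k j = t i j k := (ht.2 i j k).symm

theorem L9s3 (ht : Sym t) (i j k : Fin 4) : t k j i = t i j k := by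
  rw [ht.1, ht.2, ht.1]

theorem L9s4 (ht : Sym t) (i j k : Fin 4) : t j k i = t i j k := by
  rw [ht.2, ht.1]

theorem L9s5 (ht : Sym t) (i j k : Fin 4) : t k i j = t i j k := by
  rw [ht.1, ht.2]

/-- The normal form, if it is singular along a plane. -/
theorem Gd_eq_Fn (ht : NF t) (h33 : ∀ i, t i 3 3 = 0) :
    Gd (Pi.single 0 1) t = Fn (3 * t 0 0 3) (6 * t 0 1 3) (3 * t 1 1 3)
      ![t 0 0 0, 3 * t 0 0 1, 3 * t 0 1 1, t 1 1 1] := by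
  have e002 : t 0 0 2 = -1 / 6 := (L9s1 ht.1 0 0 2).trans (ht.2 0 0)
  have e010 : t 0 1 0 = t 0 0 1 := (L9s4 ht.1 0 0 1)
  have e012 : t 0 1 2 = 0 := ht.2 0 1
  have e020 : t 0 2 0 = -1 / 6 := (L9s4 ht.1 0 0 2).trans (ht.2 0 0)
  have e021 : t 0 2 1 = 0 := (L9s2 ht.1 0 1 2).trans (ht.2 0 1)
  have e022 : t 0 2 2 = 0 := (L9s2 ht.1 0 2 2).trans (ht.2 0 2)
  have e023 : t 0 2 3 = 0 := (L9s2 ht.1 0 3 2).trans (ht.2 0 3)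
  have e030 : t 0 3 0 = t 0 0 3 := (L9s4 ht.1 0 0 3)
  have e031 : t 0 3 1 = t 0 1 3 := (L9s2 ht.1 0 1 3)
  have e032 : t 0 3 2 = 0 := ht.2 0 3
  have e033 : t 0 3 3 = 0 := (L9s2 ht.1 0 3 3).trans (h33 0)
  have e100 : t 1 0 0 = t 0 0 1 := (L9s5 ht.1 0 0 1)
  have e101 : t 1 0 1 = t 0 1 1 := (L9s5 ht.1 0 1 1)
  have e102 : t 1 0 2 = 0 := (L9s1 ht.1 0 1 2).trans (ht.2 0 1)
  have e103 : t 1 0 3 = t 0 1 3 := (L9s1 ht.1 0 1 3)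
  have e110 : t 1 1 0 = t 0 1 1 := (L9s4 ht.1 0 1 1)
  have e112 : t 1 1 2 = 1 / 6 := (L9s1 ht.1 1 1 2).trans (ht.2 1 1)
  have e120 : t 1 2 0 = 0 := (L9s4 ht.1 0 1 2).trans (ht.2 0 1)
  have e121 : t 1 2 1 = 1 / 6 := (L9s4 ht.1 1 1 2).trans (ht.2 1 1)
  have e122 : t 1 2 2 = 0 := (L9s2 ht.1 1 2 2).trans (ht.2 1 2)
  have e123 : t 1 2 3 = 0 := (L9s2 ht.1 1 3 2).trans (ht.2 1 3)
  have e130 : t 1 3 0 = t 0 1 3 := (L9s4 ht.1 0 1 3)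
  have e131 : t 1 3 1 = t 1 1 3 := (L9s4 ht.1 1 1 3)
  have e132 : t 1 3 2 = 0 := ht.2 1 3
  have e133 : t 1 3 3 = 0 := (L9s2 ht.1 1 3 3).trans (h33 1)
  have e200 : t 2 0 0 = -1 / 6 := (L9s5 ht.1 0 0 2).trans (ht.2 0 0)
  have e201 : t 2 0 1 = 0 := (L9s5 ht.1 0 1 2).trans (ht.2 0 1)
  have e202 : t 2 0 2 = 0 := (L9s5 ht.1 0 2 2).trans (ht.2 0 2)
  have e203 : t 2 0 3 = 0 := (L9s5 ht.1 0 3 2).trans (ht.2 0 3)
  have e210 : t 2 1 0 = 0 := (L9s3 ht.1 0 1 2).trans (ht.2 0 1)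
  have e211 : t 2 1 1 = 1 / 6 := (L9s5 ht.1 1 1 2).trans (ht.2 1 1)
  have e212 : t 2 1 2 = 0 := (L9s5 ht.1 1 2 2).trans (ht.2 1 2)
  have e213 : t 2 1 3 = 0 := (L9s5 ht.1 1 3 2).trans (ht.2 1 3)
  have e220 : t 2 2 0 = 0 := (L9s4 ht.1 0 2 2).trans (ht.2 0 2)
  have e221 : t 2 2 1 = 0 := (L9s4 ht.1 1 2 2).trans (ht.2 1 2)
  have e222 : t 2 2 2 = 0 := (L9s5 ht.1 2 2 2).trans (ht.2 2 2)
  have e223 : t 2 2 3 = 0 := (L9s5 ht.1 2 3 2).trans (ht.2 2 3)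
  have e230 : t 2 3 0 = 0 := (L9s3 ht.1 0 3 2).trans (ht.2 0 3)
  have e231 : t 2 3 1 = 0 := (L9s3 ht.1 1 3 2).trans (ht.2 1 3)
  have e232 : t 2 3 2 = 0 := (L9s3 ht.1 2 3 2).trans (ht.2 2 3)
  have e233 : t 2 3 3 = 0 := (L9s2 ht.1 2 3 3).trans (h33 2)
  have e300 : t 3 0 0 = t 0 0 3 := (L9s5 ht.1 0 0 3)
  have e301 : t 3 0 1 = t 0 1 3 := (L9s5 ht.1 0 1 3)
  have e302 : t 3 0 2 = 0 := (L9s1 ht.1 0 3 2).trans (ht.2 0 3)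
  have e303 : t 3 0 3 = 0 := (L9s5 ht.1 0 3 3).trans (h33 0)
  have e310 : t 3 1 0 = t 0 1 3 := (L9s3 ht.1 0 1 3)
  have e311 : t 3 1 1 = t 1 1 3 := (L9s5 ht.1 1 1 3)
  have e312 : t 3 1 2 = 0 := (L9s1 ht.1 1 3 2).trans (ht.2 1 3)
  have e313 : t 3 1 3 = 0 := (L9s5 ht.1 1 3 3).trans (h33 1)
  have e320 : t 3 2 0 = 0 := (L9s4 ht.1 0 3 2).trans (ht.2 0 3)
  have e321 : t 3 2 1 = 0 := (L9s4 ht.1 1 3 2).trans (ht.2 1 3)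
  have e322 : t 3 2 2 = 0 := (L9s4 ht.1 2 3 2).trans (ht.2 2 3)
  have e323 : t 3 2 3 = 0 := (L9s5 ht.1 2 3 3).trans (h33 2)
  have e330 : t 3 3 0 = 0 := (L9s4 ht.1 0 3 3).trans (h33 0)
  have e331 : t 3 3 1 = 0 := (L9s4 ht.1 1 3 3).trans (h33 1)
  have e332 : t 3 3 2 = 0 := (L9s4 ht.1 2 3 3).trans (h33 2)
  have e333 : t 3 3 3 = 0 := (L9s5 ht.1 3 3 3).trans (h33 3)
  refine MvPolynomial.funext fun x => ?_
  have hl : ln (Pi.single 0 1) x = x 0 := by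
    unfold ln
    rw [Fin.sum_univ_four]
    simp
  unfold Fn
  rw [eval_Gd, eval_Fq, eval_cA, eval_cB, eval_cC, hl]
  show _ = (1 / 2 + (t 0 0 0 * x 0 + 3 * t 0 0 1 * x 1 + -1 / 2 * x 2 + 3 * t 0 0 3 * x 3)) *
    x 0 ^ 2 + 6 * t 0 1 3 * x 3 * (x 0 * x 1) +
    (3 * t 0 1 1 * x 0 + t 1 1 1 * x 1 + 1 / 2 * x 2 + 3 * t 1 1 3 * x 3) * x 1 ^ 2
  unfold tri
  simp only [Fin.sum_univ_four]
  simp only [
    e002, e010, e012, e020, e021, e022, e023, e030, e031, e032, e033, e100, e101, e102, e103,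
    e110, e112, e120, e121, e122, e123, e130, e131, e132, e133, e200, e201, e202, e203, e210,
    e211, e212, e213, e220, e221, e222, e223, e230, e231, e232, e233, e300, e301, e302, e303,
    e310, e311, e312, e313, e320, e321, e322, e323, e330, e331, e332, e333]
  ring

end C5

end MPb07157
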