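import Pool.Agent.Lib.MP_b07157_agC5S.L3
import Pool.Agent.Lib.MP_b07157_agC5S.L4
import Pool.Agent.Lib.MP_b07157_agM.MZ

/-!
# A direction in which the polynomial is constant
-/

noncomputable section

namespace MPb07157

open MvPolynomial CS

namespace C5

theorem totalDegree_Gd {n : ℕ} (l : Fin n → ℂ) (t : Fin n → Fin n → Fin n → ℂ) :
    (Gd l t).totalDegree ≤ 3 := by
  unfold Gd
  have hX : ∀ i : Fin n, (C (l i) * X i : MvPolynomial (Fin n) ℂ).totalDegree ≤ 1 := fun i =>
    (totalDegree_mul _ _).trans (by rw [totalDegree_C, totalDegree_X])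
  have hX1 : ∀ i : Fin n, (X i : MvPolynomial (Fin n) ℂ).totalDegree ≤ 1 := fun i =>
    (totalDegree_X i).le
  refine (totalDegree_add _ _).trans (max_le ?_ ?_)
  · refine (totalDegree_mul _ _).trans ?_
    rw [totalDegree_C, zero_add]
    refine (totalDegree_pow _ _).trans ?_
    have := totalDegree_finsetSum_le (s := Finset.univ) (f := fun i : Fin n => C (l i) * X i)
      (d := 1) fun i _ => hX i
    omega
  · unfold CS.cub
    refine totalDegree_finsetSum_le fun i _ => totalDegree_finsetSum_le fun j _ =>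
      totalDegree_finsetSum_le fun k _ => ?_
    refine (totalDegree_mul _ _).trans ?_
    rw [totalDegree_C, zero_add]
    refine (totalDegree_mul _ _).trans ?_
    have h1 := totalDegree_mul (X i) (X j : MvPolynomial (Fin n) ℂ)
    have h2 := hX1 i
    have h3 := hX1 j
    have h4 := hX1 k
    omega

theorem M7_basis {p : Fin 4 → ℂ} (hp : p ≠ 0) :
    ∃ b : Module.Basis (Fin 4) ℂ (Fin 4 → ℂ), b 3 = p := by
  have h1 : (Pi.single 3 1 : Fin 4 → ℂ) ≠ 0 := by
    intro h
    have := congrFun h 3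
    simp at this
  obtain ⟨A, hA⟩ := SeparatingDual.exists_continuousLinearEquiv_apply_eq (R := ℂ) h1 hp
  refine ⟨(Pi.basisFun ℂ (Fin 4)).map A.toLinearEquiv, ?_⟩
  rw [Module.Basis.map_apply, Pi.basisFun_apply]
  exact hA

/-- A polynomial without the last variable. -/
theorem M7_rename {l : Fin 4 → ℂ} (t : Fin 4 → Fin 4 → Fin 4 → ℂ) (ht : Sym t) (hl3 : l 3 = 0)
    (h3 : ∀ i j, t i j 3 = 0) :
    Gd l t = MPb07157.prodSep (Gd (fun i : Fin 3 => l i.castSucc)
      fun i j k : Fin 3 => t i.castSucc j.castSucc k.castSucc) (1 : MvPolynomial (Fin 1) ℂ) := by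
  have h3' : ∀ i k, t i 3 k = 0 := fun i k => by rw [ht.2, h3]
  have h3'' : ∀ j k, t 3 j k = 0 := fun j k => by rw [ht.1, h3']
  have hl : (Fin.last 3 : Fin 4) = 3 := rfl
  refine MvPolynomial.funext fun w => ?_
  have h5 : eval w (MPb07157.prodSep (Gd (fun i : Fin 3 => l i.castSucc)
      fun i j k : Fin 3 => t i.castSucc j.castSucc k.castSucc) (1 : MvPolynomial (Fin 1) ℂ)) =
      eval (fun i : Fin 3 => w i.castSucc) (Gd (fun i : Fin 3 => l i.castSucc)
      fun i j k : Fin 3 => t i.castSucc j.castSucc k.castSucc) := by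
    unfold MPb07157.prodSep
    rw [map_one, mul_one, eval_rename]
    rfl
  rw [h5, eval_Gd, eval_Gd]
  have h6 : ln l w = ln (fun i : Fin 3 => l i.castSucc) fun i : Fin 3 => w i.castSucc := by
    unfold ln
    rw [Fin.sum_univ_castSucc, hl, hl3, zero_mul, add_zero]
  have h7 : tri t w w w = tri (fun i j k : Fin 3 => t i.castSucc j.castSucc k.castSucc)
      (fun i : Fin 3 => w i.castSucc) (fun i : Fin 3 => w i.castSucc)
      fun i : Fin 3 => w i.castSucc := by
    unfold tri
    rw [Fin.sum_univ_castSucc]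
    simp only [hl, h3'', zero_mul, Finset.sum_const_zero, add_zero]
    refine Finset.sum_congr rfl fun i _ => ?_
    rw [Fin.sum_univ_castSucc]
    simp only [hl, h3', zero_mul, Finset.sum_const_zero, add_zero]
    refine Finset.sum_congr rfl fun j _ => ?_
    rw [Fin.sum_univ_castSucc]
    simp only [hl, h3, zero_mul, add_zero]
  rw [h6, h7]

/-- **A direction in which the polynomial is constant.** -/
theorem smcGlob_Gd_of_dir {l : Fin 4 → ℂ} {t : Fin 4 → Fin 4 → Fin 4 → ℂ} (ht : Sym t)
    (hf : Gd l t ≠ 0) {v : Fin 4 → ℂ} (hv : v ≠ 0) (hD : Dir l t v) : SmcGlob (Gd l t) := by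
  obtain ⟨b, hb⟩ := M7_basis hv
  have hlin := linEq_Gd l t b
  have hsym := sym_basis ht (fun i => b i)
  have h3 : ∀ i j, tri t (b i) (b j) (b 3) = 0 := fun i j => by
    rw [tri_comm₂₃ ht, tri_comm₁₂ ht, hb]
    exact hD.2 _ _
  have hl3 : ln l (b 3) = 0 := by rw [hb]; exact hD.1
  have hren := M7_rename (l := fun i => ln l (b i)) (fun i j k => tri t (b i) (b j) (b k)) hsym
    hl3 h3
  refine hlin.smcGlob ?_
  have hG : Gd (fun i => ln l (b i)) (fun i j k => tri t (b i) (b j) (b k)) ≠ 0 := by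
    intro h0
    obtain ⟨e, he⟩ := hlin
    refine hf (MvPolynomial.funext fun w => ?_)
    have h4 := he (e.symm w)
    rw [LinearEquiv.apply_symm_apply, h0, map_zero] at h4
    rw [h4, map_zero]
  rw [hren] at hG ⊢
  have hg : Gd (fun i : Fin 3 => ln l (b i.castSucc))
      (fun i j k : Fin 3 => tri t (b i.castSucc) (b j.castSucc) (b k.castSucc)) ≠ 0 := by
    intro h0
    apply hG
    unfold MPb07157.prodSep
    rw [h0, map_zero, zero_mul]
  exact SmcGlob.prodSep hg one_ne_zero (SmcGlob.of_deg3 hg (totalDegree_Gd _ _))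
    (SE3.smcGlob_of_ne one_ne_zero fun p => by rw [map_one]; exact one_ne_zero)

end C5

end MPb07157
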