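import Pool.Agent.Lib.MP_b07157_agC5S.L2
import Pool.Agent.Lib.MP_b07157_agC5S.L3
import Pool.Agent.Lib.MP_b07157_agC5S.L5
import Pool.Agent.Lib.MP_b07157_agC5S.L6
import Pool.Agent.Lib.MP_b07157_agC5S.M7
import Pool.Agent.Lib.MP_b07157_agC5S.L9
import Pool.Agent.Lib.MP_b07157_agCR.Main
import Pool.Agent.Lib.MP_b07157_agCS.Deg3

/-!
# The strong monodromy conjecture for all polynomials of degree at most three in four variables
-/

noncomputable section

namespace MPb07157

open MvPolynomial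

namespace C5

theorem hessAt_isSymm {n : ℕ} (f : MvPolynomial (Fin n) ℂ) (p : Fin n → ℂ) :
    (YG.hessAt f p).IsSymm := by
  ext i j
  unfold YG.hessAt
  rw [Matrix.transpose_apply, Matrix.of_apply, Matrix.of_apply, CS.T0.comm]

/-- A critical zero at which the Hessian matrix is zero: `f` is a translate of a cubic form. -/
theorem smcGlob_of_hessAt_eq_zero {f : MvPolynomial (Fin 4) ℂ} (hf : f ≠ 0)
    (hd : f.totalDegree ≤ 3) {p : Fin 4 → ℂ} (hp : eval p f = 0)
    (hc : ∀ i, eval p (pderiv i f) = 0) (hH : YG.hessAt f p = 0) : SmcGlob f := by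
  have low : ∀ j < 3, homogeneousComponent j (translate p f) = 0 := by
    refine SE4.low_of_derivatives (by rw [SE3.coeff_zero_tr, hp]) (fun i => ?_) fun i j => ?_
    · rw [pderiv_translate, SE3.coeff_zero_tr, hc]
    · rw [pderiv_translate, pderiv_translate, SE3.coeff_zero_tr]
      exact congrFun (congrFun hH i) j
  exact SE3.smcGlob_of_translate p (SmcGlob.of_cubic (translate_ne_zero hf p)
    (SE4.isHomogeneous_three ((D5.totalDegree_translate_le p f).trans hd) low))

/-- The critical zeros of rank one. -/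
def S1 (f : MvPolynomial (Fin 4) ℂ) : Set (Fin 4 → ℂ) :=
  {p | eval p f = 0 ∧ (∀ i, eval p (pderiv i f) = 0) ∧ (YG.hessAt f p).rank = 1}

/-- Finitely many critical zeros of rank one. -/
theorem smcGlob_of_finite {f : MvPolynomial (Fin 4) ℂ} (hf : f ≠ 0) (h0 : coeff 0 f = 0)
    (hd : f.totalDegree ≤ 3)
    (hZ : ∀ p, eval p f = 0 → (∀ i, eval p (pderiv i f) = 0) → YG.hessAt f p ≠ 0)
    (hfin : (S1 f).Finite) : SmcGlob f := by
  refine SmcGlob.of_corank hf h0 (T := (fun p => {p}) '' S1 f) (hfin.image _) ?_ ?_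
  · rintro W ⟨p, hp, rfl⟩
    exact ⟨isConstr_point p, MonoAlong.of_point hf fun _ _ =>
      CR.smcLoc_rank_one hd hp.1 hp.2.1 hp.2.2⟩
  · intro p hp hc
    have h1 := SE3.one_le_rank (hZ p hp hc)
    by_cases hr : (YG.hessAt f p).rank = 1
    · exact Or.inl ⟨{p}, ⟨p, ⟨hp, hc, hr⟩, rfl⟩, rfl⟩
    · right
      omega

open CS in
/-- The conjecture for the normal form. -/
theorem smcGlob_NF {t : Fin 4 → Fin 4 → Fin 4 → ℂ} (ht : NF t)
    (hZ : ∀ x, Crit (Pi.single 0 1) t x → ¬ HZero (Pi.single 0 1) t x) :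
    SmcGlob (Gd (Pi.single 0 1) t) := by
  have hZ' : ∀ p, eval p (Gd (Pi.single 0 1) t) = 0 →
      (∀ i, eval p (pderiv i (Gd (Pi.single 0 1) t)) = 0) →
      YG.hessAt (Gd (Pi.single 0 1) t) p ≠ 0 := fun p hp hc h =>
    hZ p ((crit_iff ht.1 p).2 ⟨hp, hc⟩) ((hZero_iff ht.1 p).2 h)
  have hf : Gd (Pi.single 0 1) t ≠ 0 := by
    intro h
    have h1 := hessAt_Gd (l := Pi.single 0 1) ht.1 0 0 0
    rw [h] at h1
    have h2 : YG.hessAt (0 : MvPolynomial (Fin 4) ℂ) 0 0 0 = 0 := by
      unfold YG.hessAt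
      rw [Matrix.of_apply, map_zero, map_zero, map_zero]
    rw [h2] at h1
    simp at h1
  have h0 : coeff 0 (Gd (Pi.single 0 1) t) = 0 := by
    rw [← constantCoeff_eq]
    have h1 : constantCoeff (Gd (Pi.single 0 1) t) = eval (0 : Fin 4 → ℂ) (Gd (Pi.single 0 1) t) := by
      show _ = eval (fun _ => 0) _
      rw [eval_zero']
    rw [h1, eval_Gd]
    simp [ln, tri]
  by_cases h33 : ∀ i, t i 3 3 = 0
  · have hE := Gd_eq_Fn ht h33
    rw [hE] at hf hZ' ⊢
    refine smcGlob_Fn _ _ _ _ hf hZ' fun x hc hr => ?_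
    rw [← hE] at hc hr
    exact ⟨(rank_le_one ht hc hr).1, (rank_le_one ht hc hr).2.1⟩
  · refine smcGlob_of_finite hf h0 (totalDegree_Gd _ _) hZ' ?_
    refine Set.Finite.subset (s := {0, Pi.single 2 1}) (by simp) ?_
    rintro p ⟨_, hc, hr⟩
    rcases (rank_le_one ht hc hr.le).2.2 with h | h | h
    · exact absurd h h33
    · exact Or.inl h
    · exact Or.inr h

open CS in
theorem crit_basis {l : Fin 4 → ℂ} {t : Fin 4 → Fin 4 → Fin 4 → ℂ}
    (b : Module.Basis (Fin 4) ℂ (Fin 4 → ℂ)) {x : Fin 4 → ℂ}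
    (h : Crit (fun i => ln l (b i)) (fun i j k => tri t (b i) (b j) (b k)) x) :
    Crit l t (b.equivFun.symm x) := by
  refine ⟨?_, fun z => ?_⟩
  · have h1 := h.1
    rw [ln_basis, tri_basis] at h1
    exact h1
  · have h1 := h.2 (b.equivFun z)
    rw [ln_basis, ln_basis, tri_basis, LinearEquiv.symm_apply_apply] at h1
    exact h1

open CS in
theorem hZero_basis {l : Fin 4 → ℂ} {t : Fin 4 → Fin 4 → Fin 4 → ℂ}
    (b : Module.Basis (Fin 4) ℂ (Fin 4 → ℂ)) {x : Fin 4 → ℂ}
    (h : HZero (fun i => ln l (b i)) (fun i j k => tri t (b i) (b j) (b k)) x) :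
    HZero l t (b.equivFun.symm x) := by
  intro z w
  have h1 := h (b.equivFun z) (b.equivFun w)
  rw [ln_basis, ln_basis, tri_basis, LinearEquiv.symm_apply_apply,
    LinearEquiv.symm_apply_apply] at h1
  exact h1

open CS in
/-- The conjecture for the polynomials `Gd l t`. -/
theorem smcGlob_Gd {l : Fin 4 → ℂ} (hl : l ≠ 0) {t : Fin 4 → Fin 4 → Fin 4 → ℂ} (ht : Sym t)
    (hf : Gd l t ≠ 0) (h0 : coeff 0 (Gd l t) = 0)
    (hZ : ∀ p, eval p (Gd l t) = 0 → (∀ i, eval p (pderiv i (Gd l t)) = 0) →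
      YG.hessAt (Gd l t) p ≠ 0) : SmcGlob (Gd l t) := by
  have hd := totalDegree_Gd l t
  have hZc : ∀ x, Crit l t x → ¬ HZero l t x := fun x hx hz =>
    hZ x ((crit_iff ht x).1 hx).1 ((crit_iff ht x).1 hx).2 ((hZero_iff ht x).1 hz)
  by_cases hD : ∃ v, v ≠ 0 ∧ Dir l t v
  · obtain ⟨v, hv, hDv⟩ := hD
    exact smcGlob_Gd_of_dir ht hf hv hDv
  push Not at hD
  by_cases hS : ∃ u, u ≠ 0 ∧ u ∈ S1 (Gd l t)
  · obtain ⟨u, hu0, hu1, hu2, hu3⟩ := hS
    obtain ⟨m, _, hm⟩ := exists_of_rank_one (hessAt_isSymm _ _) hu3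
    have hm' : ∀ z w, ln l z * ln l w + 6 * tri t u z w = ln m z * ln m w := by
      intro z w
      rw [← form_hessAt_Gd ht]
      simp only [hm]
      unfold ln
      rw [Finset.sum_mul_sum]
      refine Finset.sum_congr rfl fun i _ => Finset.sum_congr rfl fun j _ => ?_
      ring
    obtain ⟨hlm, hlu, hmu⟩ := pair ht hl hZc hD hu0 ((crit_iff ht u).2 ⟨hu1, hu2⟩) hm'
    obtain ⟨b, hb2, hl0, hl1, hl3, hmb0, hmb1, hmb3⟩ := exists_basis hlm hu0 hlu hmu
    refine (linEq_Gd l t b).smcGlob ?_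
    have hle : (fun i => ln l (b i)) = Pi.single 0 1 := by
      funext i
      fin_cases i
      · exact hl0
      · exact hl1
      · show ln l (b 2) = 0
        rw [hb2, hlu]
      · exact hl3
    have hZb : ∀ x, Crit (fun i => ln l (b i)) (fun i j k => tri t (b i) (b j) (b k)) x →
        ¬ HZero (fun i => ln l (b i)) (fun i j k => tri t (b i) (b j) (b k)) x := fun x h1 h2 =>
      hZc _ (crit_basis b h1) (hZero_basis b h2)
    rw [hle] at hZb ⊢
    refine smcGlob_NF ⟨sym_basis ht b, fun i j => ?_⟩ hZb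
    have h5 : tri t (b i) (b j) (b 2) = tri t u (b i) (b j) := by
      rw [hb2, tri_comm₂₃ ht, tri_comm₁₂ ht]
    have h6 : tri t (b i) (b j) (b 2) =
        (ln m (b i) * ln m (b j) - ln l (b i) * ln l (b j)) / 6 := by
      rw [h5, ← hm' (b i) (b j)]
      ring
    have hmb2 : ln m (b 2) = 0 := by rw [hb2, hmu]
    have hlb2 : ln l (b 2) = 0 := by rw [hb2, hlu]
    show tri t (b i) (b j) (b 2) = _
    rw [h6]
    fin_cases i <;> fin_cases j <;>
      simp [hl0, hl1, hlb2, hl3, hmb0, hmb1, hmb2, hmb3]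
  · push Not at hS
    refine smcGlob_of_finite hf h0 hd hZ (Set.Finite.subset (Set.finite_singleton 0) ?_)
    intro p hp
    by_contra h
    exact hS p h hp

end C5

open C5 CS in
/-- **The strong monodromy conjecture, global version**, for all polynomials of degree at most three
in four variables. -/
theorem SmcGlob.of_deg3_four {f : MvPolynomial (Fin 4) ℂ} (hf : f ≠ 0) (hd : f.totalDegree ≤ 3) :
    SmcGlob f := by
  classical
  by_cases hA : ∃ p, eval p f = 0 ∧ (∀ i, eval p (pderiv i f) = 0) ∧ YG.hessAt f p = 0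
  · obtain ⟨p, hp, hc, hH⟩ := hA
    exact smcGlob_of_hessAt_eq_zero hf hd hp hc hH
  push Not at hA
  by_cases hS : ∃ p, p ∈ S1 f
  · obtain ⟨p, hp, hc, hr⟩ := hS
    refine SE3.smcGlob_of_translate p ?_
    have hf' : translate p f ≠ 0 := translate_ne_zero hf p
    have hd' : (translate p f).totalDegree ≤ 3 := (D5.totalDegree_translate_le p f).trans hd
    have h0 : coeff 0 (translate p f) = 0 := by rw [SE3.coeff_zero_tr, hp]
    have h0' : eval 0 (translate p f) = 0 := by rw [D5.eval_translate', zero_add, hp]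
    have h1' : ∀ i, eval 0 (pderiv i (translate p f)) = 0 := fun i => by
      rw [SE3.eval_pderiv_translate, zero_add, hc]
    have hr' : (YG.hessAt (translate p f) 0).rank = 1 := by
      rw [SE3.hessAt_translate, zero_add, hr]
    have hZ : ∀ q, eval q (translate p f) = 0 → (∀ i, eval q (pderiv i (translate p f)) = 0) →
        YG.hessAt (translate p f) q ≠ 0 := by
      intro q hq0 hq1
      rw [SE3.hessAt_translate]
      exact hA (q + p) (by rw [← D5.eval_translate']; exact hq0)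
        (fun i => by rw [← SE3.eval_pderiv_translate]; exact hq1 i)
    obtain ⟨l, hl0, hl⟩ := exists_of_rank_one (hessAt_isSymm _ _) hr'
    obtain ⟨t, ht, hE⟩ := exists_Gd hd' h0' h1' hl
    rw [hE] at hf' h0 hZ ⊢
    exact smcGlob_Gd hl0 ht hf' h0 hZ
  · push Not at hS
    exact SmcGlob.of_deg3four hf hd fun p hp hc hr => hS p ⟨hp, hc, hr⟩

/-- **The strong monodromy conjecture, local version**, for all polynomials of degree at most three
in four variables. -/
theorem SmcLoc.of_deg3_four {f : MvPolynomial (Fin 4) ℂ} (hf : f ≠ 0) (h0 : coeff 0 f = 0)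
    (hd : f.totalDegree ≤ 3) : SmcLoc f := by
  classical
  by_cases h1 : ∃ i, coeff (Finsupp.single i 1) f ≠ 0
  · obtain ⟨i, hi⟩ := h1
    exact SU.smcLoc_smooth h0 hi
  push Not at h1
  by_cases hr : (YG.hessAt f 0).rank = 1
  · have hev : ∀ g : MvPolynomial (Fin 4) ℂ, eval (0 : Fin 4 → ℂ) g = coeff 0 g := by
      intro g
      rw [← constantCoeff_eq]
      show eval (fun _ => 0) _ = _
      rw [eval_zero']
    have h3 := CR.smcLoc_rank_one hd (p := 0) (by rw [hev, h0]) (fun i => by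
      rw [hev, coeff_pderiv, zero_add, h1, zero_mul]) hr
    have h4 : translate 0 f = f := by
      refine MvPolynomial.funext fun x => ?_
      rw [D5.eval_translate', add_zero]
    rwa [h4] at h3
  · exact SmcLoc.of_deg3four hf h0 hd hr

end MPb07157
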