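import Pool.Agent.Lib.MP_b07157_agC5S.Plane

/-!
# Cubic polynomials which are singular along a plane: the conjecture along the degenerate points
-/

noncomputable section

namespace MPb07157

open MvPolynomial

namespace C5

/-- The rank of a matrix is at most one: the minors of order two vanish. -/
theorem minor_eq {n : ℕ} {A : Matrix (Fin n) (Fin n) ℂ} (h : A.rank ≤ 1) (i j k l : Fin n) :
    A i k * A j l = A i l * A j k := by
  unfold Matrix.rank at h
  obtain ⟨v, hv⟩ := finrank_le_one_iff.1 h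
  have hcol : ∀ s : Fin n, ∃ c : ℂ, ∀ r, A r s = c * (v : Fin n → ℂ) r := by
    intro s
    obtain ⟨c, hc⟩ := hv ⟨A.mulVecLin (Pi.single s 1), LinearMap.mem_range_self _ _⟩
    refine ⟨c, fun r => ?_⟩
    have h1 := congrFun (congrArg Subtype.val hc) r
    simp only [Matrix.mulVecLin_apply, Matrix.mulVec_single_one] at h1
    rw [← show c * (v : Fin n → ℂ) r = A r s from h1]
  obtain ⟨c, hc⟩ := hcol k
  obtain ⟨d, hd⟩ := hcol l
  rw [hc i, hc j, hd i, hd j]
  ring

variable (a b c : ℂ) (g : Fin 4 → ℂ)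

/-- The three coefficients of the normal form. -/
def cA : MvPolynomial (Fin 4) ℂ := La ![g 0, g 1, -1 / 2, a] (1 / 2)

def cB : MvPolynomial (Fin 4) ℂ := La ![0, 0, 0, b] 0

def cC : MvPolynomial (Fin 4) ℂ := La ![g 2, g 3, 1 / 2, c] 0

/-- The normal form. -/
def Fn : MvPolynomial (Fin 4) ℂ := Fq 0 1 (cA a g) (cB b) (cC c g)

/-- The discriminant. -/
def Dn : MvPolynomial (Fin 4) ℂ := 4 * cA a g * cC c g - cB b ^ 2

theorem eval_cA (p : Fin 4 → ℂ) : eval p (cA a g) =
    1 / 2 + (g 0 * p 0 + g 1 * p 1 + -1 / 2 * p 2 + a * p 3) := by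
  unfold cA
  rw [eval_La, Fin.sum_univ_four]
  rfl

theorem eval_cB (p : Fin 4 → ℂ) : eval p (cB b) = b * p 3 := by
  unfold cB
  rw [eval_La, Fin.sum_univ_four]
  show 0 + (0 * p 0 + 0 * p 1 + 0 * p 2 + b * p 3) = _
  ring

theorem eval_cC (p : Fin 4 → ℂ) : eval p (cC c g) =
    g 2 * p 0 + g 3 * p 1 + 1 / 2 * p 2 + c * p 3 := by
  unfold cC
  rw [eval_La, Fin.sum_univ_four]
  show 0 + (g 2 * p 0 + g 3 * p 1 + 1 / 2 * p 2 + c * p 3) = _
  ring

theorem eval_Dn (p : Fin 4 → ℂ) :
    eval p (Dn a b c g) = 4 * eval p (cA a g) * eval p (cC c g) - eval p (cB b) ^ 2 := by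
  simp [Dn]

theorem eval_pderiv_Dn (p : Fin 4 → ℂ) (l : Fin 4) :
    eval p (pderiv l (Dn a b c g)) =
      4 * ((![g 0, g 1, -1 / 2, a] : Fin 4 → ℂ) l * eval p (cC c g) +
        (![g 2, g 3, 1 / 2, c] : Fin 4 → ℂ) l * eval p (cA a g)) -
      2 * eval p (cB b) * (![0, 0, 0, b] : Fin 4 → ℂ) l := by
  have h1 : pderiv l (cA a g) = C ((![g 0, g 1, -1 / 2, a] : Fin 4 → ℂ) l) := pderiv_La _ _ l
  have h2 : pderiv l (cB b) = C ((![0, 0, 0, b] : Fin 4 → ℂ) l) := pderiv_La _ _ l
  have h3 : pderiv l (cC c g) = C ((![g 2, g 3, 1 / 2, c] : Fin 4 → ℂ) l) := pderiv_La _ _ l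
  have h4 : (4 : MvPolynomial (Fin 4) ℂ) = C 4 := (map_ofNat C 4).symm
  unfold Dn
  rw [h4, map_sub, Derivation.leibniz, Derivation.leibniz, Derivation.leibniz_pow, h1, h2, h3,
    pderiv_C]
  simp only [smul_eq_mul, nsmul_eq_mul, map_sub, map_add, map_mul, map_pow, eval_C, map_zero,
    map_natCast]
  push_cast
  ring

/-- The discriminant has a nonzero differential at its zeros with `A ≠ 0` or `C ≠ 0`. -/
theorem diff_Dn {p : Fin 4 → ℂ} (h0 : p 0 = 0) (h1 : p 1 = 0) (hD : eval p (Dn a b c g) = 0)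
    (hA : eval p (cA a g) ≠ 0 ∨ eval p (cC c g) ≠ 0)
    (h2 : eval p (pderiv 2 (Dn a b c g)) = 0) (h3 : eval p (pderiv 3 (Dn a b c g)) = 0) :
    False := by
  rw [eval_pderiv_Dn] at h2 h3
  rw [eval_Dn] at hD
  have hA' := eval_cA a g p
  have hB' := eval_cB b p
  have hC' := eval_cC c g p
  rw [h0, h1] at hA' hC'
  set A := eval p (cA a g) with hAdef
  set B := eval p (cB b) with hBdef
  set C' := eval p (cC c g) with hCdef
  have h2' : 4 * ((-1 / 2 : ℂ) * C' + 1 / 2 * A) - 2 * B * 0 = 0 := h2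
  have h3' : 4 * (a * C' + c * A) - 2 * B * b = 0 := h3
  have hAC : A = C' := by linear_combination (1 / 2) * h2'
  have hA0 : A ≠ 0 := by
    rcases hA with h | h
    · exact h
    · rwa [hAC]
  have h5 : A * ((a + c) * p 3 - 2 * A) = 0 := by
    have e1 : 4 * (a + c) * A * p 3 - 2 * B ^ 2 = 0 := by
      rw [hB']
      rw [hB', ← hAC] at h3'
      linear_combination p 3 * h3'
    have e2 : 4 * A ^ 2 - B ^ 2 = 0 := by
      rw [← hAC] at hD
      linear_combination hD
    linear_combination (1 / 4) * e1 - (1 / 2) * e2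
  have h6 : (a + c) * p 3 - 2 * A = 0 := by
    rcases mul_eq_zero.1 h5 with h | h
    · exact absurd h hA0
    · exact h
  have h7 : A + C' = 1 / 2 + (a + c) * p 3 := by
    rw [hA', hC']
    ring
  rw [← hAC] at h7
  have h8 : (1 : ℂ) / 2 = 0 := by linear_combination -h7 - h6
  norm_num at h8

/-- The degenerate points with `A ≠ 0`. -/
def W₁ : Set (Fin 4 → ℂ) :=
  {x | x 0 = 0 ∧ x 1 = 0 ∧ eval x (Dn a b c g) = 0 ∧ eval x (cA a g) ≠ 0}

/-- The degenerate points with `C ≠ 0`. -/
def W₂ : Set (Fin 4 → ℂ) :=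
  {x | x 0 = 0 ∧ x 1 = 0 ∧ eval x (Dn a b c g) = 0 ∧ eval x (cC c g) ≠ 0}

theorem isConstr_X_eq_zero (i : Fin 4) : IsConstr {x : Fin 4 → ℂ | x i = 0} := by
  have h := isConstr_eq_zero (X i : MvPolynomial (Fin 4) ℂ)
  simpa using h

theorem isConstr_W₁ : IsConstr (W₁ a b c g) :=
  isConstr_setOf_and (isConstr_X_eq_zero 0) (isConstr_setOf_and (isConstr_X_eq_zero 1)
    (isConstr_setOf_and (isConstr_eq_zero _) (isConstr_ne_zero _)))

theorem isConstr_W₂ : IsConstr (W₂ a b c g) :=
  isConstr_setOf_and (isConstr_X_eq_zero 0) (isConstr_setOf_and (isConstr_X_eq_zero 1)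
    (isConstr_setOf_and (isConstr_eq_zero _) (isConstr_ne_zero _)))

theorem eval_pderiv_X (p : Fin 4 → ℂ) (l i : Fin 4) :
    eval p (pderiv l (X i : MvPolynomial (Fin 4) ℂ)) = if l = i then 1 else 0 := by
  rw [pderiv_X]
  by_cases h : i = l
  · subst h
    simp
  · rw [Pi.single_eq_of_ne h, if_neg (Ne.symm h), map_zero]

theorem eval_pderiv_lin {A B : MvPolynomial (Fin 4) ℂ} {p : Fin 4 → ℂ} {i j : Fin 4}
    (hi : p i = 0) (hj : p j = 0) (l : Fin 4) :
    eval p (pderiv l (2 * A * X i + B * X j)) =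
      (if l = i then 2 * eval p A else 0) + if l = j then eval p B else 0 := by
  have h4 : (2 : MvPolynomial (Fin 4) ℂ) = C 2 := (map_ofNat C 2).symm
  rw [h4]
  simp only [map_add, Derivation.leibniz, smul_eq_mul, map_mul, eval_C, eval_X, eval_pderiv_X, hi,
    hj]
  split_ifs <;> ring

theorem monoAlong_W₁ (hf : Fn a b c g ≠ 0) : MonoAlong (Fn a b c g) (W₁ a b c g) := by
  refine MonoAlong.of_trivAlong hf (g := gP) ⟨![2 * cA a g * X 0 + cB b * X 1, Dn a b c g, X 1],
    4 * cA a g, 1, 1, fun x _ => ?_, fun p hp => ?_⟩ fun _ _ => smcLoc_gP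
  · rw [eval_gP]
    show eval x (4 * cA a g) * eval x (Fn a b c g) = eval x 1 *
      ((eval x (2 * cA a g * X 0 + cB b * X 1) / eval x 1) ^ 2 +
      (eval x (Dn a b c g) / eval x 1) * (eval x (X 1 : MvPolynomial (Fin 4) ℂ) / eval x 1) ^ 2)
    have h4 : (4 : MvPolynomial (Fin 4) ℂ) = C 4 := (map_ofNat C 4).symm
    have h2 : (2 : MvPolynomial (Fin 4) ℂ) = C 2 := (map_ofNat C 2).symm
    unfold Fn
    rw [eval_Fq, eval_Dn, h4, h2]
    simp only [map_mul, map_add, eval_C, eval_X, map_one]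
    ring
  · obtain ⟨h0, h1, hD, hA⟩ := hp
    have h4 : (4 : MvPolynomial (Fin 4) ℂ) = C 4 := (map_ofNat C 4).symm
    refine ⟨?_, by simp, by simp, fun j => ?_, ?_⟩
    · rw [h4, map_mul, eval_C]
      exact mul_ne_zero (by norm_num) hA
    · fin_cases j
      · show eval p (2 * cA a g * X 0 + cB b * X 1) = 0
        simp [h0, h1]
      · exact hD
      · show eval p (X 1) = 0
        rw [eval_X, h1]
    · rw [Fintype.linearIndependent_iff]
      intro w hw
      have hk : ∀ l : Fin 4, w 0 * eval p (pderiv l (2 * cA a g * X 0 + cB b * X 1)) +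
          w 1 * eval p (pderiv l (Dn a b c g)) +
          w 2 * eval p (pderiv l (X 1 : MvPolynomial (Fin 4) ℂ)) = 0 := by
        intro l
        have h5 := congrFun hw l
        rw [Fin.sum_univ_three] at h5
        exact h5
      simp only [eval_pderiv_lin h0 h1, eval_pderiv_X] at hk
      have k0 := hk 0
      have k1 := hk 1
      have k2 := hk 2
      have k3 := hk 3
      simp only [Fin.reduceEq, if_true, if_false, mul_zero, add_zero, zero_add] at k0 k1 k2 k3
      have w1 : w 1 = 0 := by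
        by_contra hne
        refine diff_Dn a b c g h0 h1 hD (Or.inl hA) ?_ ?_
        · exact (mul_eq_zero.1 k2).resolve_left hne
        · exact (mul_eq_zero.1 k3).resolve_left hne
      have w0 : w 0 = 0 := by
        rw [w1, zero_mul, add_zero] at k0
        exact (mul_eq_zero.1 k0).resolve_right (mul_ne_zero two_ne_zero hA)
      have w2 : w 2 = 0 := by
        rw [w1, w0, zero_mul, zero_mul, zero_add, zero_add, mul_one] at k1
        exact k1
      intro i
      fin_cases i
      · exact w0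
      · exact w1
      · exact w2

theorem monoAlong_W₂ (hf : Fn a b c g ≠ 0) : MonoAlong (Fn a b c g) (W₂ a b c g) := by
  refine MonoAlong.of_trivAlong hf (g := gP) ⟨![2 * cC c g * X 1 + cB b * X 0, Dn a b c g, X 0],
    4 * cC c g, 1, 1, fun x _ => ?_, fun p hp => ?_⟩ fun _ _ => smcLoc_gP
  · rw [eval_gP]
    show eval x (4 * cC c g) * eval x (Fn a b c g) = eval x 1 *
      ((eval x (2 * cC c g * X 1 + cB b * X 0) / eval x 1) ^ 2 +
      (eval x (Dn a b c g) / eval x 1) * (eval x (X 0 : MvPolynomial (Fin 4) ℂ) / eval x 1) ^ 2)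
    have h4 : (4 : MvPolynomial (Fin 4) ℂ) = C 4 := (map_ofNat C 4).symm
    have h2 : (2 : MvPolynomial (Fin 4) ℂ) = C 2 := (map_ofNat C 2).symm
    unfold Fn
    rw [eval_Fq, eval_Dn, h4, h2]
    simp only [map_mul, map_add, eval_C, eval_X, map_one]
    ring
  · obtain ⟨h0, h1, hD, hC⟩ := hp
    have h4 : (4 : MvPolynomial (Fin 4) ℂ) = C 4 := (map_ofNat C 4).symm
    refine ⟨?_, by simp, by simp, fun j => ?_, ?_⟩
    · rw [h4, map_mul, eval_C]
      exact mul_ne_zero (by norm_num) hC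
    · fin_cases j
      · show eval p (2 * cC c g * X 1 + cB b * X 0) = 0
        simp [h0, h1]
      · exact hD
      · show eval p (X 0) = 0
        rw [eval_X, h0]
    · rw [Fintype.linearIndependent_iff]
      intro w hw
      have hk : ∀ l : Fin 4, w 0 * eval p (pderiv l (2 * cC c g * X 1 + cB b * X 0)) +
          w 1 * eval p (pderiv l (Dn a b c g)) +
          w 2 * eval p (pderiv l (X 0 : MvPolynomial (Fin 4) ℂ)) = 0 := by
        intro l
        have h5 := congrFun hw l
        rw [Fin.sum_univ_three] at h5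
        exact h5
      simp only [eval_pderiv_lin h1 h0, eval_pderiv_X] at hk
      have k0 := hk 0
      have k1 := hk 1
      have k2 := hk 2
      have k3 := hk 3
      simp only [Fin.reduceEq, if_true, if_false, mul_zero, add_zero, zero_add] at k0 k1 k2 k3
      have w1 : w 1 = 0 := by
        by_contra hne
        refine diff_Dn a b c g h0 h1 hD (Or.inr hC) ?_ ?_
        · exact (mul_eq_zero.1 k2).resolve_left hne
        · exact (mul_eq_zero.1 k3).resolve_left hne
      have w0 : w 0 = 0 := by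
        rw [w1, zero_mul, add_zero] at k1
        exact (mul_eq_zero.1 k1).resolve_right (mul_ne_zero two_ne_zero hC)
      have w2 : w 2 = 0 := by
        rw [w1, w0, zero_mul, zero_mul, zero_add, zero_add, mul_one] at k0
        exact k0
      intro i
      fin_cases i
      · exact w0
      · exact w1
      · exact w2

/-- The conjecture for the normal form. -/
theorem smcGlob_Fn (hf : Fn a b c g ≠ 0)
    (hZ : ∀ x, eval x (Fn a b c g) = 0 → (∀ i, eval x (pderiv i (Fn a b c g)) = 0) →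
      YG.hessAt (Fn a b c g) x ≠ 0)
    (hr : ∀ x, (∀ i, eval x (pderiv i (Fn a b c g)) = 0) →
      (YG.hessAt (Fn a b c g) x).rank ≤ 1 → x 0 = 0 ∧ x 1 = 0) : SmcGlob (Fn a b c g) := by
  have h00 : coeff 0 (Fn a b c g) = 0 := by
    rw [← constantCoeff_eq]
    simp [Fn, Fq]
  refine SmcGlob.of_corank hf h00 (T := {W₁ a b c g, W₂ a b c g}) (by simp) ?_ ?_
  · intro W hW
    rcases hW with rfl | hW
    · exact ⟨isConstr_W₁ a b c g, monoAlong_W₁ a b c g hf⟩
    · rw [Set.mem_singleton_iff.1 hW]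
      exact ⟨isConstr_W₂ a b c g, monoAlong_W₂ a b c g hf⟩
  · intro p hp hc
    by_cases hrk : (YG.hessAt (Fn a b c g) p).rank ≤ 1
    · left
      obtain ⟨h0, h1⟩ := hr p hc hrk
      have hH : ∀ l m : Fin 4, YG.hessAt (Fn a b c g) p l m = _ :=
        fun l m => hess_Fq l m (cA a g) (cB b) (cC c g) h0 h1
      have hmin := minor_eq hrk 0 1 0 1
      rw [hH 0 0, hH 1 1, hH 0 1, hH 1 0] at hmin
      simp only [eval_pderiv_X, Fin.reduceEq, if_true, if_false] at hmin
      have hD : eval p (Dn a b c g) = 0 := by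
        rw [eval_Dn]
        linear_combination hmin
      by_cases hA : eval p (cA a g) = 0
      · by_cases hC : eval p (cC c g) = 0
        · exfalso
          have hB : eval p (cB b) = 0 := by
            rw [eval_Dn, hA, mul_zero, zero_mul, zero_sub, neg_eq_zero] at hD
            exact pow_eq_zero_iff (two_ne_zero) |>.1 hD
          refine hZ p hp hc ?_
          ext l m
          rw [hH l m, hA, hB, hC]
          simp
        · exact ⟨W₂ a b c g, Or.inr rfl, h0, h1, hD, hC⟩
      · exact ⟨W₁ a b c g, Or.inl rfl, h0, h1, hD, hA⟩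
    · right
      omega

end C5

end MPb07157
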