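import Pool.Agent.Lib.MP_b07157_agSE.Surf
import Pool.Agent.Lib.MP_b07157_agSG.Final

/-!
# Cubic polynomials in four variables which are singular along a plane
-/

noncomputable section

namespace MPb07157

open MvPolynomial

namespace C5

/-- The pinch point. -/
def gP : MvPolynomial (Fin 3) ℂ := X 0 ^ 2 + X 1 * X 2 ^ 2

theorem eval_gP (x : Fin 3 → ℂ) : eval x gP = x 0 ^ 2 + x 1 * x 2 ^ 2 := by
  simp [gP]

theorem smcLoc_gP : SmcLoc gP := by
  refine SmcLoc.of_deg3 ?_ ?_ ?_
  · intro h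
    have h1 := congrArg (eval (![1, 0, 0] : Fin 3 → ℂ)) h
    rw [eval_gP, map_zero] at h1
    simp at h1
  · rw [← constantCoeff_eq]
    simp [gP]
  · unfold gP
    refine (totalDegree_add _ _).trans (max_le ?_ ?_)
    · refine (totalDegree_pow _ _).trans ?_
      rw [totalDegree_X]
      norm_num
    · refine (totalDegree_mul _ _).trans ?_
      refine (Nat.add_le_add (totalDegree_X _).le (totalDegree_pow _ _)).trans ?_
      rw [totalDegree_X]

/-- An affine linear form. -/
def La (a : Fin 4 → ℂ) (e : ℂ) : MvPolynomial (Fin 4) ℂ := C e + ∑ i, C (a i) * X i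

theorem eval_La (a : Fin 4 → ℂ) (e : ℂ) (p : Fin 4 → ℂ) :
    eval p (La a e) = e + ∑ i, a i * p i := by
  simp [La]

theorem pderiv_La (a : Fin 4 → ℂ) (e : ℂ) (l : Fin 4) : pderiv l (La a e) = C (a l) := by
  classical
  unfold La
  rw [map_add, pderiv_C, zero_add, map_sum, Finset.sum_eq_single l]
  · rw [Derivation.leibniz, pderiv_X_self, pderiv_C]
    simp
  · intro i _ hi
    rw [Derivation.leibniz, pderiv_X_of_ne hi, pderiv_C]
    simp
  · intro h
    exact absurd (Finset.mem_univ l) h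

/-- The polynomials which are singular along the plane `x_0 = x_1 = 0`. -/
def Fq (i j : Fin 4) (A B C' : MvPolynomial (Fin 4) ℂ) : MvPolynomial (Fin 4) ℂ :=
  A * X i ^ 2 + B * (X i * X j) + C' * X j ^ 2

theorem eval_Fq (i j : Fin 4) (A B C' : MvPolynomial (Fin 4) ℂ) (p : Fin 4 → ℂ) :
    eval p (Fq i j A B C') =
      eval p A * p i ^ 2 + eval p B * (p i * p j) + eval p C' * p j ^ 2 := by
  simp [Fq]

theorem pderiv_Fq (i j l : Fin 4) (A B C' : MvPolynomial (Fin 4) ℂ) :
    pderiv l (Fq i j A B C') =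
      pderiv l A * X i ^ 2 + pderiv l B * (X i * X j) + pderiv l C' * X j ^ 2 +
      (pderiv l (X i) * (2 * A * X i + B * X j) + pderiv l (X j) * (B * X i + 2 * C' * X j)) := by
  unfold Fq
  simp only [map_add, Derivation.leibniz, Derivation.leibniz_pow, smul_eq_mul, nsmul_eq_mul]
  push_cast
  ring

theorem eval_pderiv_Fq {i j : Fin 4} (l : Fin 4) (A B C' : MvPolynomial (Fin 4) ℂ)
    {p : Fin 4 → ℂ} (hi : p i = 0) (hj : p j = 0) : eval p (pderiv l (Fq i j A B C')) = 0 := by
  rw [pderiv_Fq]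
  simp [hi, hj]

theorem hess_Fq {i j : Fin 4} (l m : Fin 4) (A B C' : MvPolynomial (Fin 4) ℂ)
    {p : Fin 4 → ℂ} (hi : p i = 0) (hj : p j = 0) :
    YG.hessAt (Fq i j A B C') p l m =
      eval p (pderiv m (X i)) * (2 * eval p A * eval p (pderiv l (X i)) +
        eval p B * eval p (pderiv l (X j))) +
      eval p (pderiv m (X j)) * (eval p B * eval p (pderiv l (X i)) +
        2 * eval p C' * eval p (pderiv l (X j))) := by
  have h2 : ∀ a b : Fin 4, pderiv l (pderiv a (X b : MvPolynomial (Fin 4) ℂ)) = 0 := by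
    intro a b
    rw [pderiv_X]
    by_cases h : b = a
    · subst h
      simp
    · simp [Pi.single_apply, h]
  unfold YG.hessAt
  rw [Matrix.of_apply, pderiv_Fq]
  simp only [map_add, Derivation.leibniz, Derivation.leibniz_pow, smul_eq_mul, nsmul_eq_mul,
    map_mul, map_pow, eval_X, hi, hj, h2, map_zero, map_natCast]
  have h3 : eval p (2 : MvPolynomial (Fin 4) ℂ) = 2 := map_ofNat _ 2
  rw [h3]
  ring

end C5

end MPb07157
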